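import Pool.Agent.W631.CU.Defs
import Pool.Agent.W631.CG.Fn

/-!
# Adding many Cohen reals forces the principle
-/

set_option autoImplicit false

namespace Pool.Agent.W631.CU

open Cardinal Set Pool.Agent.Helper669.Forcing Pool.Agent.W684.FM Pool.Agent.W631.CG

/-- A common support for a family of names. -/
theorem exists_support_family {J K X : Type} [Countable K] {κ : Cardinal.{0}} (hκ : ℵ₀ ≤ κ)
    (hX : #X ≤ κ) (N : X → Set (Fn J K)) :
    ∃ A : Set J, #A ≤ κ ∧ ∀ x, ∀ q ∈ meets (N x), q.res A ∈ meets (N x) := by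
  choose A hA1 hA2 using fun x => Fn.exists_support (N x)
  refine ⟨⋃ x, A x, ?_, fun x q hq => ?_⟩
  · refine (Cardinal.mk_iUnion_le_sum_mk).trans ?_
    refine (Cardinal.sum_le_sum _ (fun _ => ℵ₀) (fun x => ?_)).trans ?_
    · exact Cardinal.le_aleph0_iff_set_countable.2 (hA1 x)
    · rw [Cardinal.sum_const']
      refine (mul_le_mul_left hX _).trans ?_
      rw [Cardinal.mul_aleph0_eq hκ]
  · refine down_meets _ _ (hA2 x q hq) _ ⟨fun i hi => ?_, fun i hi => rfl⟩
    rw [Fn.mem_res_dom] at hi ⊢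
    exact ⟨hi.1, mem_iUnion.2 ⟨x, hi.2⟩⟩

variable {J K : Type}

/-- the name of the generic sequence -/
def gn (h : Om1 → J) (α : Om1) (n : ℕ) (d : Digit) : Set (Fn (J × ℕ) Digit) :=
  {p | (h α, n) ∈ p.dom ∧ p.val (h α, n) = d}

theorem down_gn (h : Om1 → J) (α : Om1) (n : ℕ) (d : Digit) : Down (gn h α n d) :=
  fun _ hp _ hq => ⟨hq.1 hp.1, (hq.2 _ hp.1).trans hp.2⟩

theorem exists_mem_dom (q : Fn (J × ℕ) Digit) (i : J × ℕ) : ∃ r ≤ q, i ∈ r.dom := by
  classical
  exact ⟨⟨insert i q.dom, q.val⟩, ⟨Finset.subset_insert _ _, fun _ _ => rfl⟩,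
    Finset.mem_insert_self _ _⟩

theorem isFun_gn (h : Om1 → J) (α : Om1) (p : Fn (J × ℕ) Digit) : p ∈ IsFun (gn h α) := by
  refine ⟨fun n => mem_fex.2 fun q _ => ?_, fun n d d' => mem_fimp.2 fun q _ hq => ?_⟩
  · obtain ⟨r, hr, hr2⟩ := exists_mem_dom q (h α, n)
    exact ⟨r, hr, r.val (h α, n), meets_of_mem ⟨hr2, rfl⟩⟩
  · obtain ⟨r, hr, hr2⟩ := exists_of_meets (down_gn h α n d) hq.1
    obtain ⟨s, hs, hs2⟩ := exists_of_meets (down_gn h α n d') (down_meets _ _ hq.2 r hr)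
    refine ⟨q, le_rfl, ?_⟩
    change d = d'
    rw [← hs2.2, ← hr2.2]
    exact (hs.2 _ hr2.1).symm

theorem down_InitN {P : Type} [Preorder P] (g : ℕ → Digit → Set P) (σ : List Digit) :
    Down (InitN g σ) :=
  down_fall fun _ => down_fall fun _ => down_meets _

/-- only countably many values are possible -/
theorem countable_values {P X : Type} [Preorder P] (hP : PCCC P) {k : ℕ → X → Set P} {q : P}
    (hk : q ∈ IsFun k) (j : ℕ) : {b | ∃ r ≤ q, r ∈ meets (k j b)}.Countable := by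
  by_contra hcon
  have hne : ∀ b : {b | ∃ r ≤ q, r ∈ meets (k j b)}, ∃ r ≤ q, r ∈ meets (k j b.1) :=
    fun b => b.2
  choose f hf1 hf2 using hne
  have hfam := hP.family f (by
    intro h
    exact hcon (Set.countable_coe_iff.1 h))
  obtain ⟨b, b', hbb, r, hr, hr'⟩ := hfam
  apply hbb
  apply Subtype.ext
  exact IsFun.unique (down_IsFun _ _ hk _ (hr.trans (hf1 b)))
    (down_meets _ _ (hf2 b) _ hr) (down_meets _ _ (hf2 b') _ hr')

theorem forced (hK : ℵ₀ < #K) (hJ : #K < #J) (p : Fn (J × ℕ) Digit) :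
    p ∈ CohenPrincipleN K (Fn (J × ℕ) Digit) := by
  classical
  intro R
  obtain ⟨A, hA, hAR⟩ := exists_support_family hK.le (X := K × K) (by
    rw [Cardinal.mk_prod, Cardinal.lift_id, Cardinal.mul_eq_self hK.le])
    (fun x => R x.1 x.2)
  -- the new coordinates
  have hJ0 : ℵ₀ ≤ #J := hK.le.trans hJ.le
  have hA1 : #(Prod.fst '' A : Set J) < #J := (Cardinal.mk_image_le.trans hA).trans_lt hJ
  have hcompl : ℵ₁ ≤ #((Prod.fst '' A)ᶜ : Set J) := by
    have : Infinite J := Cardinal.infinite_iff.2 hJ0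
    rw [Cardinal.mk_compl_of_infinite _ hA1, ← Cardinal.succ_aleph0]
    exact Order.succ_le_of_lt (hK.trans hJ)
  obtain ⟨h⟩ : Nonempty (Om1 ↪ ((Prod.fst '' A)ᶜ : Set J)) := by
    rw [← Cardinal.le_def, Cardinal.mk_ord_toType]
    exact hcompl
  have hhA : ∀ α i, i ∈ A → i.1 ≠ (h α : J) := by
    intro α i hi hcon
    exact (h α).2 ⟨i, hi, hcon⟩
  refine mem_fex_of_mem (gn fun α => (h α : J)) (down_fand (down_fall fun _ => down_IsFun _)
    (down_fall fun _ => down_fall fun _ => down_fimp _ _)) ⟨fun α => isFun_gn _ α p, ?_⟩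
  intro k Z
  refine mem_fimp.2 fun q _ hk => ?_
  -- the support of `k` and `Z`
  have hval := countable_values Fn.pccc hk
  choose S1 hS1 hS1' using fun (x : ℕ × K) => Fn.exists_support (k x.1 x.2)
  choose S2 hS2 hS2' using fun (x : List Digit × ℕ) => Fn.exists_support (Z x.1 x.2)
  let S : Set (J × ℕ) := (⋃ j, ⋃ b ∈ {b | ∃ r ≤ q, r ∈ meets (k j b)}, S1 (j, b)) ∪ ⋃ x, S2 x
  have hS : S.Countable := by
    refine Set.Countable.union (countable_iUnion fun j => (hval j).biUnion fun b _ => hS1 _)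
      (countable_iUnion fun x => hS2 x)
  have hbad : {α | ∃ i ∈ S, i.1 = (h α : J)}.Countable := by
    have h1 : (Prod.fst '' S : Set J).Countable := hS.image _
    have h2 := h1.preimage (f := fun α => (h α : J)) (fun a b hab => h.injective (Subtype.ext hab))
    refine h2.mono ?_
    rintro α ⟨i, hi, hi2⟩
    exact ⟨i, hi, hi2⟩
  obtain ⟨c, hc⟩ : ∃ c : ℕ → Om1, {α | ∃ i ∈ S, i.1 = (h α : J)} ⊆ Set.range c := by
    by_cases hne : {α | ∃ i ∈ S, i.1 = (h α : J)}.Nonempty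
    · obtain ⟨c, hc⟩ := hbad.exists_eq_range hne
      exact ⟨c, hc.le⟩
    · rw [Set.not_nonempty_iff_eq_empty] at hne
      have : Nonempty Om1 := by
        rw [← Cardinal.mk_ne_zero_iff, Cardinal.mk_ord_toType]
        exact (Cardinal.aleph_pos 1).ne'
      exact ⟨fun _ => Classical.arbitrary _, by rw [hne]; exact Set.empty_subset _⟩
  refine ⟨q, le_rfl, mem_fex_of_mem (fun n α => {_p | c n = α}) (down_fand (down_IsFun _)
    (down_fall fun _ => down_fimp _ _)) ⟨⟨fun n => ?_, fun n a b => ?_⟩, ?_⟩⟩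
  · exact mem_fex_of_mem (c n) (down_meets _) (meets_of_mem rfl)
  · refine mem_fimp.2 fun r _ hr => ⟨r, le_rfl, ?_⟩
    obtain ⟨_, _, s, hs, _⟩ := hr.1 r le_rfl
    obtain ⟨_, _, s', hs', _⟩ := hr.2 r le_rfl
    change a = b
    exact (show c n = a from hs).symm.trans hs'
  intro α
  refine mem_fimp.2 fun r hr hα => ⟨r, le_rfl, ?_⟩
  have hαS : ∀ i ∈ S, i.1 ≠ (h α : J) := by
    intro i hi hcon
    obtain ⟨n, hn⟩ := hc ⟨i, hi, hcon⟩
    exact hα r le_rfl (mem_fex_of_mem n (down_meets _) (meets_of_mem hn))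
  intro a
  refine mem_fimp.2 fun r' hr' hdense => ?_
  let m := r'.dom.sup Prod.snd + 1
  have hm : ∀ i ∈ r'.dom, i.2 < m := fun i hi => Nat.lt_succ_of_le (Finset.le_sup hi)
  let r1 : Fn (J × ℕ) Digit :=
    ⟨r'.dom ∪ (Finset.range m).image (fun n => ((h α : J), n)), r'.val⟩
  have hr1 : r1 ≤ r' := ⟨Finset.subset_union_left, fun _ _ => rfl⟩
  have hr1m : ∀ i ∈ r1.dom, i.1 = (h α : J) → i.2 < m := by
    intro i hi hi2
    rcases Finset.mem_union.1 hi with h1 | h1
    · exact hm i h1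
    · obtain ⟨n, hn, rfl⟩ := Finset.mem_image.1 h1
      exact Finset.mem_range.1 hn
  let σ : List Digit := (List.range m).map fun n => r'.val ((h α : J), n)
  obtain ⟨r2, hr2, τ, h2⟩ := mem_fex.1 (hdense σ) r1 hr1
  obtain ⟨r3, hr3, j, h3⟩ := mem_fex.1 h2 r2 le_rfl
  obtain ⟨r4, hr4, b, hστ, h4k, h4R, h4Z⟩ := mem_fex.1 h3 r3 le_rfl
  have hστ' : σ <+: τ := hστ
  have hr41 : r4 ≤ r1 := hr4.trans (hr3.trans hr2)
  have hr4q : r4 ≤ q := hr41.trans (hr1.trans (hr'.trans hr))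
  have hσlen : σ.length = m := by simp [σ]
  have hlen : m ≤ τ.length := by
    rw [← hσlen]
    exact hστ'.length_le
  -- the modification of `r4` at the coordinate of `α`
  let r5 : Fn (J × ℕ) Digit :=
    ⟨r4.dom.filter (fun i => i.1 ≠ (h α : J)) ∪
      (Finset.range τ.length).image (fun n => ((h α : J), n)),
      fun i => if i.1 = (h α : J) then τ.getD i.2 (false, false) else r4.val i⟩
  have hval5 : ∀ n, r5.val ((h α : J), n) = τ.getD n (false, false) := fun n => by simp [r5]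
  have hr5 : r5 ≤ r1 := by
    refine ⟨fun i hi => ?_, fun i hi => ?_⟩
    · by_cases hi2 : i.1 = (h α : J)
      · refine Finset.mem_union_right _ (Finset.mem_image.2 ⟨i.2, ?_, ?_⟩)
        · exact Finset.mem_range.2 ((hr1m i hi hi2).trans_le hlen)
        · rw [← hi2]
      · exact Finset.mem_union_left _ (Finset.mem_filter.2 ⟨hr41.1 hi, hi2⟩)
    · by_cases hi2 : i.1 = (h α : J)
      · obtain ⟨x, n⟩ := i
        simp only at hi2
        subst hi2
        have hn : n < m := hr1m _ hi rfl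
        rw [hval5]
        obtain ⟨ρ, rfl⟩ := hστ'
        have : n < σ.length := by rw [hσlen]; exact hn
        rw [List.getD_append _ _ _ _ this, List.getD_eq_getElem _ _ this]
        simp [σ, r1]
      · have h1 : r5.val i = r4.val i := by simp [r5, hi2]
        rw [h1]
        exact hr41.2 i hi
  have key : ∀ N : Set (Fn (J × ℕ) Digit), ∀ C : Set (J × ℕ), (∀ i ∈ C, i.1 ≠ (h α : J)) →
      (∀ s ∈ meets N, s.res C ∈ meets N) → r4 ∈ meets N → r5 ∈ meets N := by
    intro N C hC hN hr4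
    refine down_meets _ _ (hN r4 hr4) _ ⟨fun i hi => ?_, fun i hi => ?_⟩
    · rw [Fn.mem_res_dom] at hi
      exact Finset.mem_union_left _ (Finset.mem_filter.2 ⟨hi.1, hC i hi.2⟩)
    · rw [Fn.mem_res_dom] at hi
      have h1 : r5.val i = r4.val i := by simp [r5, hC i hi.2]
      rw [h1, Fn.res_val]
  refine ⟨r5, hr5.trans hr1, ?_⟩
  refine mem_fex_of_mem τ (down_fex _) (mem_fex_of_mem j (down_fex _) (mem_fex_of_mem b
    (down_fand (down_InitN _ _) (down_fand (down_meets _) (down_fand (down_meets _)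
      (down_meets _)))) ⟨?_, ?_, ?_, ?_⟩))
  · intro i hi
    refine meets_of_mem ⟨Finset.mem_union_right _ (Finset.mem_image.2 ⟨i, ?_, rfl⟩), ?_⟩
    · exact Finset.mem_range.2 hi
    · rw [hval5, List.getD_eq_getElem _ _ hi]
  · refine key _ (S1 (j, b)) (fun i hi => hαS i (Or.inl ?_)) (hS1' (j, b)) h4k
    exact mem_iUnion.2 ⟨j, mem_iUnion₂.2 ⟨b, ⟨r4, hr4q, h4k⟩, hi⟩⟩
  · exact key _ A (fun i hi => hhA α i hi) (hAR (a, b)) h4R
  · exact key _ (S2 (τ, j)) (fun i hi => hαS i (Or.inr (mem_iUnion.2 ⟨_, hi⟩))) (hS2' (τ, j)) h4Z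

end Pool.Agent.W631.CU
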