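import Pool.Agent.W631.CU.Defs
import Pool.Agent.W631.CG.Sanity

/-!
# For the trivial forcing notion the forcing version is the original sentence
-/

set_option autoImplicit false

namespace Pool.Agent.W631.CU.Sanity

open Pool.Agent.Helper669.Forcing Pool.Agent.W684.FM Pool.Agent.W631.CG.Sanity

theorem isFn_iff' {X Y : Type} (c : X → Y → Set Unit) :
    o ∈ IsFun c ↔ CU.IsFn fun x n => o ∈ c x n := isFn_iff c

theorem ex_pred3 {X Y Z : Type} (Φ : (X → Y → Z → Set Unit) → Prop) (Ψ : (X → Y → Z → Prop) → Prop)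
    (h : ∀ U : X → Y → Z → Set Unit, Φ U ↔ Ψ fun x y z => o ∈ U x y z) :
    (∃ U, Φ U) ↔ ∃ U, Ψ U := by
  constructor
  · rintro ⟨U, hU⟩
    exact ⟨_, (h U).1 hU⟩
  · rintro ⟨U, hU⟩
    exact ⟨fun x y => nm (U x y), (h _).2 hU⟩

theorem all_pred2 {X Y : Type} (Φ : (X → Y → Set Unit) → Prop) (Ψ : (X → Y → Prop) → Prop)
    (h : ∀ U : X → Y → Set Unit, Φ U ↔ Ψ fun x y => o ∈ U x y) : (∀ U, Φ U) ↔ ∀ U, Ψ U :=
  ⟨fun H U => (h (fun x => nm (U x))).1 (H _), fun H U => (h U).2 (H _)⟩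

/-- the trivial forcing notion forces the principle iff it is true -/
theorem cohenPrinciple (K : Type) : o ∈ CohenPrincipleN K Unit ↔ CohenPrinciple K := by
  unfold CohenPrincipleN CohenPrinciple
  rw [fall_iff]
  apply all_pred2
  intro R
  rw [fex_iff]
  apply ex_pred3
  intro g
  rw [fand_iff]
  refine and_congr (forall_congr' fun α => isFn_iff' _) ?_
  rw [fall_iff]
  apply all_pred2 _ (fun k => ∀ Z : List Digit → ℕ → Prop, CU.IsFn k →
      ∃ c : ℕ → Om1 → Prop, CU.IsFn c ∧ ∀ α, ¬ (∃ n, c n α) → ∀ a,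
        (∀ σ, ∃ τ j b, σ <+: τ ∧ k j b ∧ o ∈ R a b ∧ Z τ j) →
          ∃ τ j b, Init (fun x y => o ∈ g α x y) τ ∧ k j b ∧ o ∈ R a b ∧ Z τ j)
  intro k
  rw [fall_iff]
  apply all_pred2 _ (fun Z => CU.IsFn (fun x y => o ∈ k x y) →
      ∃ c : ℕ → Om1 → Prop, CU.IsFn c ∧ ∀ α, ¬ (∃ n, c n α) → ∀ a,
        (∀ σ, ∃ τ j b, σ <+: τ ∧ o ∈ k j b ∧ o ∈ R a b ∧ Z τ j) →
          ∃ τ j b, Init (fun x y => o ∈ g α x y) τ ∧ o ∈ k j b ∧ o ∈ R a b ∧ Z τ j)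
  intro Z
  rw [fimp_iff, isFn_iff']
  refine imp_congr Iff.rfl ?_
  rw [fex_iff]
  apply ex_pred2
  intro c
  rw [fand_iff, isFn_iff']
  refine and_congr Iff.rfl ?_
  simp only [fall_iff, fimp_iff, fnot_iff, fex_iff, fand_iff, fground_iff, meets_iff, InitN, Init]

end Pool.Agent.W631.CU.Sanity
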