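import Mathlib

/-!
# Spaces of continuous functions with the topology of pointwise convergence
-/

set_option autoImplicit false

namespace Pool.Agent.W631.CU

open Cardinal Set Topology

/-- The topology of pointwise convergence on the set of all continuous functions `X → ℝ`: the
subspace topology from the product space `X → ℝ`. -/
@[instance_reducible] def cpTop (X : Type) [TopologicalSpace X] : TopologicalSpace C(X, ℝ) :=
  TopologicalSpace.induced (fun (f : C(X, ℝ)) (x : X) => f x) Pi.topologicalSpace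

/-- The weight of `X` is at most `κ`: the topology has a base of cardinality at most `κ`. -/
def WeightLe (X : Type) [TopologicalSpace X] (κ : Cardinal.{0}) : Prop :=
  ∃ B : Set (Set X), TopologicalSpace.IsTopologicalBasis B ∧ #B ≤ κ

/-- `C_p(X)` is homeomorphic to a subspace of `C_p(Y)`. -/
def CpEmbeds (X Y : Type) [TopologicalSpace X] [TopologicalSpace Y] : Prop :=
  ∃ e : C(X, ℝ) → C(Y, ℝ), @IsEmbedding _ _ (cpTop X) (cpTop Y) e

section

variable {X : Type} [TopologicalSpace X]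

theorem cp_basis (f : C(X, ℝ)) {U : Set C(X, ℝ)} (hU : U ∈ @nhds _ (cpTop X) f) :
    ∃ (F : Finset X) (δ : ℝ), 0 < δ ∧ ∀ g : C(X, ℝ), (∀ x ∈ F, |g x - f x| < δ) → g ∈ U := by
  rw [cpTop, nhds_induced, Filter.mem_comap] at hU
  obtain ⟨V, hV, hVU⟩ := hU
  rw [nhds_pi, Filter.mem_pi] at hV
  obtain ⟨I, hI, t, ht, hsub⟩ := hV
  choose ε hε hball using fun x => Metric.mem_nhds_iff.1 (ht x)
  have : ∃ δ : ℝ, 0 < δ ∧ ∀ x ∈ hI.toFinset, δ ≤ ε x := by
    classical
    induction hI.toFinset using Finset.induction_on with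
    | empty => exact ⟨1, one_pos, by simp⟩
    | insert a s _ ih =>
      obtain ⟨δ, h1, h2⟩ := ih
      refine ⟨min δ (ε a), lt_min h1 (hε a), fun x hx => ?_⟩
      rcases Finset.mem_insert.1 hx with rfl | hx
      · exact min_le_right _ _
      · exact (min_le_left _ _).trans (h2 x hx)
  obtain ⟨δ, hδ, hδ2⟩ := this
  refine ⟨hI.toFinset, δ, hδ, fun g hg => hVU (hsub ?_)⟩
  intro x hx
  have hx' : x ∈ hI.toFinset := hI.mem_toFinset.2 hx
  apply hball x
  rw [Metric.mem_ball, Real.dist_eq]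
  exact (hg x hx').trans_le (hδ2 x hx')

theorem cp_mem (f : C(X, ℝ)) (x : X) {ε : ℝ} (hε : 0 < ε) :
    {g : C(X, ℝ) | |g x - f x| < ε} ∈ @nhds _ (cpTop X) f := by
  rw [cpTop, nhds_induced, Filter.mem_comap]
  refine ⟨{v | |v x - f x| < ε}, ?_, fun g hg => hg⟩
  have h1 : Continuous fun v : X → ℝ => |v x - f x| := by fun_prop
  have h2 : IsOpen {v : X → ℝ | |v x - f x| < ε} := isOpen_lt h1 continuous_const
  exact h2.mem_nhds (by simpa using hε)

variable {Y : Type} [TopologicalSpace Y] {e : C(X, ℝ) → C(Y, ℝ)}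

theorem emb_cont (he : @IsEmbedding _ _ (cpTop X) (cpTop Y) e) (f : C(X, ℝ)) (w : Y) {ε : ℝ}
    (hε : 0 < ε) : ∃ (F : Finset X) (δ : ℝ), 0 < δ ∧
      ∀ g : C(X, ℝ), (∀ x ∈ F, |g x - f x| < δ) → |e g w - e f w| < ε := by
  let := cpTop X
  let := cpTop Y
  have h1 := he.continuous.continuousAt (x := f) (cp_mem (e f) w hε)
  exact cp_basis f h1

theorem emb_inv (he : @IsEmbedding _ _ (cpTop X) (cpTop Y) e) (f : C(X, ℝ)) (x : X) {ε : ℝ}
    (hε : 0 < ε) : ∃ (F : Finset Y) (δ : ℝ), 0 < δ ∧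
      ∀ g : C(X, ℝ), (∀ w ∈ F, |e g w - e f w| < δ) → |g x - f x| < ε := by
  let := cpTop X
  let := cpTop Y
  have h1 := cp_mem f x hε
  rw [he.isInducing.nhds_eq_comap, Filter.mem_comap] at h1
  obtain ⟨V, hV, hVU⟩ := h1
  obtain ⟨F, δ, hδ, h2⟩ := cp_basis (e f) hV
  exact ⟨F, δ, hδ, fun g hg => hVU (h2 (e g) hg)⟩

end

end Pool.Agent.W631.CU
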