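import Pool.Agent.W684.FM.Defs

/-!
# A principle about Cohen reals, and its forcing translation

The digits are pairs of truth values and `ℕ → Digit` is a copy of the Cantor space. The principle
`CohenPrinciple K` says: for every relation `R` on `K` there is a family of `ℵ₁` sequences of digits
such that, whenever a sequence `k 0, k 1, …` in `K` and a relation `Z` between finite sequences of
digits and natural numbers are given, all but countably many members of the family are generic with
respect to all the sets `{σ | ∃ j, R a (k j) ∧ Z σ j}`, `a : K`: if such a set is dense, then it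
contains an initial segment of the member. Subsets, relations and functions are given by predicates,
and `CohenPrincipleN K P` is the literal translation to the forcing language of
`Pool.Agent.Helper669.Forcing`: quantifiers over predicates become quantifiers over names.
-/

set_option autoImplicit false

namespace Pool.Agent.W631.CU

open Cardinal Pool.Agent.Helper669.Forcing Pool.Agent.W684.FM

/-- The digits. -/
abbrev Digit : Type := Bool × Bool

section Ambient

/-- `F` is the graph of a function from `X` to `Y`. -/
def IsFn {X Y : Type} (F : X → Y → Prop) : Prop :=
  (∀ x, ∃ y, F x y) ∧ ∀ x y y', F x y ∧ F x y' → y = y'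

/-- The finite sequence `σ` is an initial segment of the sequence with graph `g`. -/
def Init (g : ℕ → Digit → Prop) (σ : List Digit) : Prop :=
  ∀ i, ∀ h : i < σ.length, g i (σ[i]'h)

/-- The principle for `K`. -/
def CohenPrinciple (K : Type) : Prop :=
  ∀ R : K → K → Prop, ∃ g : Om1 → ℕ → Digit → Prop, (∀ α, IsFn (g α)) ∧
    ∀ (k : ℕ → K → Prop) (Z : List Digit → ℕ → Prop), IsFn k →
      ∃ c : ℕ → Om1 → Prop, IsFn c ∧ ∀ α, ¬ (∃ n, c n α) → ∀ a,
        (∀ σ, ∃ τ j b, σ <+: τ ∧ k j b ∧ R a b ∧ Z τ j) →
          ∃ τ j b, Init (g α) τ ∧ k j b ∧ R a b ∧ Z τ j

end Ambient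

section Names

variable {P : Type} [Preorder P]

/-- Forcing version of `Init`. -/
def InitN (g : ℕ → Digit → Set P) (σ : List Digit) : Set P :=
  fall fun i => fall fun h : i < σ.length => meets (g i (σ[i]'h))

/-- Forcing version of `CohenPrinciple`. -/
def CohenPrincipleN (K P : Type) [Preorder P] : Set P :=
  fall fun R : K → K → Set P => fex fun g : Om1 → ℕ → Digit → Set P =>
    fand (fall fun α => IsFun (g α))
      (fall fun k : ℕ → K → Set P => fall fun Z : List Digit → ℕ → Set P => fimp (IsFun k)
        (fex fun c : ℕ → Om1 → Set P => fand (IsFun c)
          (fall fun α => fimp (fnot (fex fun n => meets (c n α))) (fall fun a => fimp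
            (fall fun σ => fex fun τ => fex fun j => fex fun b => fand (fground (σ <+: τ))
              (fand (meets (k j b)) (fand (meets (R a b)) (meets (Z τ j)))))
            (fex fun τ => fex fun j => fex fun b => fand (InitN (g α) τ)
              (fand (meets (k j b)) (fand (meets (R a b)) (meets (Z τ j)))))))))

end Names

end Pool.Agent.W631.CU
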