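import Pool.Agent.W631.CU.Small

/-!
# No compact space of weight `κ` is universal
-/

set_option autoImplicit false

namespace Pool.Agent.W631.CU

open Cardinal Set Topology Pool.Agent.W684.FM Pool.Agent.W631.CG Pool.Agent.Helper669.Forcing

theorem exists_finset_of_open {T : Type} {V : Set (T → Bool)} (hV : IsOpen V) {y0 : T → Bool}
    (hy0 : y0 ∈ V) : ∃ F : Finset T, ∀ y : T → Bool, (∀ t ∈ F, y t = y0 t) → y ∈ V := by
  have h1 := hV.mem_nhds hy0
  rw [nhds_pi, Filter.mem_pi] at h1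
  obtain ⟨I, hI, t, ht, hsub⟩ := h1
  refine ⟨hI.toFinset, fun y hy => hsub fun x hx => ?_⟩
  rw [hy x (hI.mem_toFinset.2 hx)]
  exact mem_of_mem_nhds (ht x)

variable {G : Idx → ℕ → Digit} {W : Type} [TopologicalSpace W]

theorem contradiction' {e : C(XSet G, ℝ) → C(W, ℝ)}
    (he : @IsEmbedding _ _ (cpTop _) (cpTop W) e)
    (hsmall : ∀ ε : ℝ, 0 < ε → ∀ τ0, ∃ τ, τ0 <+: τ ∧ Small G e ε τ) : False := by
  classical
  -- a generic point
  let O : ℕ × ℕ → Set (ℕ → Bool) := fun x => ⋃ τ ∈ {τ : List Digit | x.1 ≤ τ.length ∧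
    (∀ j < x.1, (dig τ j).2 = false) ∧ Small G e (1 / (x.2 + 1)) τ},
    {y | ∀ j ∈ Finset.range τ.length, y j = (dig τ j).1}
  have hcyl : ∀ τ : List Digit, IsOpen {y : ℕ → Bool | ∀ j ∈ Finset.range τ.length,
      y j = (dig τ j).1} := by
    intro τ
    have h2 : Continuous fun y : ℕ → Bool => decide (∀ j ∈ Finset.range τ.length,
        y j = (dig τ j).1) := by
      refine continuous_of_dep (Finset.range τ.length) _ fun p q hpq => ?_
      have : (∀ j ∈ Finset.range τ.length, p j = (dig τ j).1) ↔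
          (∀ j ∈ Finset.range τ.length, q j = (dig τ j).1) :=
        forall₂_congr fun j hj => by rw [hpq j hj]
      simp only [this]
    have h3 := (isOpen_discrete ({true} : Set Bool)).preimage h2
    convert h3 using 1
    ext y
    simp only [mem_preimage, mem_singleton_iff, decide_eq_true_eq, mem_ofPred_eq]
  have hOo : ∀ x, IsOpen (O x) := fun x => isOpen_biUnion fun τ _ => hcyl τ
  have hOd : ∀ x, Dense (O x) := by
    intro x
    rw [dense_iff_inter_open]
    rintro V hV ⟨y0, hy0⟩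
    obtain ⟨F, hF⟩ := exists_finset_of_open hV hy0
    let l := max (F.sup id + 1) x.1
    obtain ⟨τ, hτ, hs⟩ := hsmall (1 / (x.2 + 1)) (by positivity)
      (pre (fun j => (y0 j, false)) l)
    have hl : l ≤ τ.length := by
      have := hτ.length_le
      rwa [length_pre] at this
    refine ⟨fun j => (dig τ j).1, hF _ fun t ht => ?_, mem_iUnion₂.2 ⟨τ, ⟨?_, fun j hj => ?_, hs⟩,
      fun j _ => rfl⟩⟩
    · have h1 : t < l := lt_of_lt_of_le (Nat.lt_succ_of_le (Finset.le_sup (f := id) ht))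
        (le_max_left _ _)
      rw [dig_prefix hτ (by rwa [length_pre]), dig_pre _ h1]
    · exact (le_max_right _ _).trans hl
    · have h1 : j < l := lt_of_lt_of_le hj (le_max_right _ _)
      rw [dig_prefix hτ (by rwa [length_pre]), dig_pre _ h1]
  obtain ⟨y, hy⟩ := (dense_iInter_of_isOpen hOo hOd).nonempty
  rw [mem_iInter] at hy
  obtain ⟨p, hp⟩ := exists_point G y
  -- the embedding at the zero function
  obtain ⟨F, η, hη, hF⟩ := emb_inv he (dx G []) p one_pos
  choose K δ hδ hK using fun w : W => emb_cont he (dx G []) w (half_pos hη)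
  have hn : ∃ n, ∀ z ∈ F.biUnion K, yy z ≠ y → ∃ j < n, yy z j ≠ y j := by
    have h1 : ∀ z ∈ F.biUnion K, ∃ n, yy z ≠ y → ∃ j < n, yy z j ≠ y j := by
      intro z _
      by_cases h : yy z = y
      · exact ⟨0, fun h' => absurd h h'⟩
      · obtain ⟨j, hj⟩ := Function.ne_iff.1 h
        exact ⟨j + 1, fun _ => ⟨j, Nat.lt_succ_self j, hj⟩⟩
    choose! n hn using h1
    refine ⟨(F.biUnion K).sup n, fun z hz hzy => ?_⟩
    obtain ⟨j, hj, hj2⟩ := hn z hz hzy
    exact ⟨j, hj.trans_le (Finset.le_sup hz), hj2⟩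
  obtain ⟨n, hn⟩ := hn
  obtain ⟨m, hm⟩ := exists_nat_one_div_lt (half_pos hη)
  obtain ⟨τ, ⟨hτ1, hτ2, hτ3⟩, hτy⟩ := mem_iUnion₂.1 (hy (n, m))
  simp only at hτ1 hτ2 hτ3
  have hτy' : ∀ j < τ.length, (dig τ j).1 = y j := fun j hj =>
    (hτy j (Finset.mem_range.2 hj)).symm
  -- `d τ` vanishes on the finite set
  have hzero : ∀ z ∈ F.biUnion K, dx G τ z = dx G [] z := by
    intro z hz
    refine dx_congr ⟨?_, ?_⟩
    · rintro ⟨m', hm', ha, hb, hc⟩
      exfalso
      have h1 : n ≤ m' := by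
        by_contra hcon
        push Not at hcon
        rw [hτ2 m' hcon] at hc
        exact absurd hc (by simp)
      rw [hτy' m' hm'] at hb
      obtain ⟨j, hj, hj2⟩ := hn z hz (fun h => hb (congrFun h m'))
      have h2 := ha j (hj.trans_le h1)
      rw [hτy' j ((hj.trans_le h1).trans hm')] at h2
      exact hj2 h2
    · rintro ⟨m', hm', _⟩
      simp at hm'
  have hsm : ∀ w ∈ F, |e (dx G τ) w - e (dx G []) w| < η / 2 := by
    intro w hw
    refine hK w (dx G τ) fun x hx => ?_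
    rw [hzero x (Finset.mem_biUnion.2 ⟨w, hw, hx⟩)]
    simpa using hδ w
  -- the extension containing `y`
  let τ' : List Digit := τ ++ [(!(y τ.length), true)]
  have hlast : dig τ' τ.length = (!(y τ.length), true) := by
    unfold dig
    rw [List.getD_append_right _ _ _ _ le_rfl]
    simp
  have hone : dx G τ' p = 1 := by
    rw [dx_apply, if_pos]
    refine ⟨τ.length, by simp [τ'], fun j hj => ?_, ?_, ?_⟩
    · rw [dig_append_left _ _ hj, hτy' j hj, hp]
    · rw [hlast, hp]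
      simp
    · rw [hlast]
  have hex : ∃ w ∈ F, η ≤ |e (dx G τ') w - e (dx G []) w| := by
    by_contra hcon
    push Not at hcon
    have h1 := hF (dx G τ') hcon
    rw [hone, dx_nil] at h1
    simp at h1
  obtain ⟨w, hw, hw2⟩ := hex
  have h1 := hsm w hw
  have h2 := hτ3 τ' τ ⟨_, rfl⟩ List.prefix_rfl w
  have h3 := abs_sub_le (e (dx G τ') w) (e (dx G τ) w) (e (dx G []) w)
  linarith

theorem mk_idx : #(((ℕ ⊕ Idx) × Bool)) ≤ ℵ₁ := by
  have h1 : #Om1 = ℵ₁ := Cardinal.mk_ord_toType _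
  have h0 : ℵ₀ ≤ ℵ₁ := Cardinal.aleph0_le_aleph 1
  have h2 : #Idx ≤ ℵ₁ := by
    rw [Cardinal.mk_prod, Cardinal.lift_id, Cardinal.lift_id, h1]
    exact Cardinal.mul_le_of_le h0 le_rfl ((Cardinal.mk_le_aleph0).trans h0)
  have h3 : #(ℕ ⊕ Idx) ≤ ℵ₁ := by
    rw [Cardinal.mk_sum, Cardinal.lift_id, Cardinal.lift_id]
    exact Cardinal.add_le_of_le h0 ((Cardinal.mk_le_aleph0).trans h0) h2
  rw [Cardinal.mk_prod, Cardinal.lift_id, Cardinal.lift_id]
  exact Cardinal.mul_le_of_le h0 h3 ((Cardinal.mk_le_aleph0).trans h0)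

theorem mk_finset_le {T : Type} {κ : Cardinal.{0}} (hκ : ℵ₀ ≤ κ) (hT : #T ≤ κ) :
    #(Finset T) ≤ κ := by
  by_cases h : Infinite T
  · rwa [Cardinal.mk_finset_of_infinite]
  · have : Finite T := not_infinite_iff_finite.1 h
    have : Finite (Finset T) := inferInstance
    exact (Cardinal.lt_aleph0_of_finite _).le.trans hκ

theorem weightLe (G : Idx → ℕ → Digit) : WeightLe (XSet G) ℵ₁ := by
  classical
  let b : Finset ((ℕ ⊕ Idx) × Bool) → Set (XSet G) := fun F => {p | ∀ t ∈ F, p.1 t.1 = t.2}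
  refine ⟨Set.range b, ?_, ?_⟩
  · refine TopologicalSpace.isTopologicalBasis_of_isOpen_of_nhds ?_ ?_
    · rintro _ ⟨F, rfl⟩
      have h1 : b F = ⋂ t ∈ F, (fun p : XSet G => p.1 t.1) ⁻¹' {t.2} := by
        ext p
        simp [b]
      rw [h1]
      refine isOpen_biInter_finset fun t _ => (isOpen_discrete _).preimage ?_
      exact (continuous_apply t.1).comp continuous_subtype_val
    · intro p U hpU hU
      obtain ⟨V, hV, rfl⟩ := isOpen_induced_iff.1 hU
      obtain ⟨F, hF⟩ := exists_finset_of_open hV hpU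
      refine ⟨_, ⟨F.image fun t => (t, p.1 t), rfl⟩, ?_, ?_⟩
      · intro t ht
        obtain ⟨s, _, rfl⟩ := Finset.mem_image.1 ht
        rfl
      · intro q hq
        exact hF q.1 fun t ht => hq (t, p.1 t) (Finset.mem_image_of_mem _ ht)
  · exact (Cardinal.mk_range_le).trans (mk_finset_le (Cardinal.aleph0_le_aleph 1) mk_idx)

theorem exists_surj {S T : Type} [Nonempty T] (h : #T ≤ #S) :
    ∃ f : S → T, Function.Surjective f := by
  rw [Cardinal.le_def] at h
  obtain ⟨g⟩ := h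
  exact ⟨Function.invFun g, Function.invFun_surjective g.injective⟩

/-- The main theorem. -/
theorem no_universal {K : Type} (hK : ℵ₀ ≤ #K) (h : CohenPrinciple K) (W : Type)
    [TopologicalSpace W] [CompactSpace W] (hW : WeightLe W #K) :
    ∃ G : Idx → ℕ → Digit, ¬ CpEmbeds (XSet G) W := by
  classical
  obtain ⟨B, hB, hBK⟩ := hW
  have hV : #{U : Set W // U ∈ B ∧ U.Nonempty} ≤ #K :=
    (Cardinal.mk_le_of_injective (f := fun U => (⟨U.1, U.2.1⟩ : B)) (fun U U' h => by
      simpa [Subtype.ext_iff] using h)).trans hBK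
  have hV' : #({U : Set W // U ∈ B ∧ U.Nonempty} × ℚ × ℚ) ≤ #K := by
    rw [Cardinal.mk_prod, Cardinal.lift_id, Cardinal.lift_id]
    exact Cardinal.mul_le_of_le hK hV ((Cardinal.mk_le_aleph0).trans hK)
  obtain ⟨φ, hφ⟩ := exists_surj (mk_finset_le hK hV')
  obtain ⟨ψ, hψ⟩ := exists_surj (S := K) (T := Option ({U : Set W // U ∈ B ∧ U.Nonempty} × ℚ × ℚ))
    (by
      rw [Cardinal.mk_option]
      exact Cardinal.add_le_of_le hK hV' (Cardinal.one_le_aleph0.trans hK))
  obtain ⟨a, ha⟩ := exists_approx hB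
  choose pt hpt using fun U : {U : Set W // U ∈ B ∧ U.Nonempty} => U.2.2
  obtain ⟨G, hpre, hG⟩ := exists_gen h φ hφ ψ hψ (Rel a pt)
  refine ⟨G, ?_⟩
  rintro ⟨e, he⟩
  refine contradiction' he fun ε hε τ0 => ?_
  obtain ⟨τ, h1, h2⟩ := small_dense hB ha hpt hpre hG he (show 0 < ε / 10 by linarith) τ0
  refine ⟨τ, h1, ?_⟩
  rwa [show 10 * (ε / 10) = ε by ring] at h2

end Pool.Agent.W631.CU
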