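import Pool.Agent.W631.CU.Defs

/-!
# Generic sequences from the principle
-/

set_option autoImplicit false

namespace Pool.Agent.W631.CU

open Cardinal Set Pool.Agent.W684.FM

/-- initial segments -/
def pre (g : ℕ → Digit) (n : ℕ) : List Digit := (List.range n).map g

/-- the members of a finite sequence, with a default value -/
def dig (τ : List Digit) (n : ℕ) : Digit := τ.getD n (false, false)

@[simp] theorem length_pre (g : ℕ → Digit) (n : ℕ) : (pre g n).length = n := by simp [pre]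

theorem dig_pre (g : ℕ → Digit) {n i : ℕ} (h : i < n) : dig (pre g n) i = g i := by
  unfold dig
  rw [List.getD_eq_getElem _ _ (by simpa using h)]
  simp [pre]

theorem dig_append_left (σ τ : List Digit) {i : ℕ} (h : i < σ.length) :
    dig (σ ++ τ) i = dig σ i := List.getD_append _ _ _ _ h

theorem dig_prefix {σ τ : List Digit} (h : σ <+: τ) {i : ℕ} (hi : i < σ.length) :
    dig τ i = dig σ i := by
  obtain ⟨ρ, rfl⟩ := h
  exact dig_append_left _ _ hi

theorem eq_pre (σ : List Digit) (g : ℕ → Digit) (h : ∀ i < σ.length, dig σ i = g i) :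
    σ = pre g σ.length := by
  apply List.ext_getElem (by simp)
  intro i h1 h2
  have := h i h1
  unfold dig at this
  rw [List.getD_eq_getElem _ _ h1] at this
  rw [this]
  simp [pre]

theorem exists_fn {X Y : Type} {F : X → Y → Prop} (h : IsFn F) :
    ∃ f : X → Y, ∀ x y, F x y ↔ f x = y := by
  choose f hf using h.1
  exact ⟨f, fun x y => ⟨fun hy => h.2 x _ _ ⟨hf x, hy⟩, fun hy => hy ▸ hf x⟩⟩

theorem isFn_graph {X Y : Type} (f : X → Y) : IsFn fun x y => f x = y :=
  ⟨fun x => ⟨f x, rfl⟩, fun _ _ _ h => h.1.symm.trans h.2⟩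

theorem CohenPrinciple.fn {K : Type} (h : CohenPrinciple K) (R : K → K → Prop) :
    ∃ g : Om1 → ℕ → Digit, ∀ (k : ℕ → K) (Z : List Digit → ℕ → Prop),
      {α | ¬ ∀ a, (∀ σ, ∃ τ j, σ <+: τ ∧ R a (k j) ∧ Z τ j) →
        ∃ n j, R a (k j) ∧ Z (pre (g α) n) j}.Countable := by
  obtain ⟨g', hg', H⟩ := h R
  choose g hg using fun α => exists_fn (hg' α)
  refine ⟨g, fun k Z => ?_⟩
  obtain ⟨c', hc', H'⟩ := H (fun j b => k j = b) Z (isFn_graph k)
  obtain ⟨c, hc⟩ := exists_fn hc'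
  refine (Set.countable_range c).mono ?_
  intro α hα
  by_contra hcon
  apply hα
  intro a ha
  obtain ⟨τ, j, b, h1, h2, h3, h4⟩ := H' α (fun ⟨n, hn⟩ => hcon ⟨n, (hc n α).1 hn⟩) a (by
    intro σ
    obtain ⟨τ, j, h1, h2, h3⟩ := ha σ
    exact ⟨τ, j, k j, h1, rfl, h2, h3⟩)
  have h5 : τ = pre (g α) τ.length := by
    apply eq_pre
    intro i hi
    have h6 := (hg α i _).1 (h1 i hi)
    rw [h6]
    exact List.getD_eq_getElem _ _ hi
  subst h2
  exact ⟨τ.length, j, h3, by rw [← h5]; exact h4⟩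

/-- The set of indices. -/
abbrev Idx : Type := Om1 × List Digit

/-- the sequences `σ ⌢ g α` -/
def cat (g : Om1 → ℕ → Digit) (i : Idx) (n : ℕ) : Digit :=
  if n < i.2.length then dig i.2 n else g i.1 (n - i.2.length)

theorem pre_cat (g : Om1 → ℕ → Digit) (α : Om1) (σ : List Digit) (n : ℕ) :
    pre (cat g (α, σ)) (σ.length + n) = σ ++ pre (g α) n := by
  have h : σ ++ pre (g α) n = pre (cat g (α, σ)) (σ ++ pre (g α) n).length := by
    apply eq_pre
    intro i hi
    unfold cat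
    by_cases h1 : i < σ.length
    · simp only [h1, if_true]
      exact dig_append_left _ _ h1
    · simp only [h1, if_false]
      unfold dig
      rw [List.getD_append_right _ _ _ _ (not_lt.1 h1)]
      rw [List.length_append, length_pre] at hi
      exact dig_pre _ (by omega)
  rw [h]
  simp

theorem exists_gen {K A E : Type} (h : CohenPrinciple K) (φ : K → A)
    (hφ : Function.Surjective φ) (ψ : K → E) (hψ : Function.Surjective ψ) (R : A → E → Prop) :
    ∃ G : Idx → ℕ → Digit, (∀ α σ, pre (G (α, σ)) σ.length = σ) ∧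
      ∀ (k : ℕ → E) (Z : List Digit → ℕ → Prop),
        {i | ¬ ∀ a, (∀ σ, ∃ τ j, σ <+: τ ∧ R a (k j) ∧ Z τ j) →
          ∃ n j, R a (k j) ∧ Z (pre (G i) n) j}.Countable := by
  obtain ⟨g, hg⟩ := h.fn fun a b => R (φ a) (ψ b)
  refine ⟨cat g, fun α σ => ?_, fun k Z => ?_⟩
  · have := pre_cat g α σ 0
    rw [Nat.add_zero] at this
    rw [this]
    simp [pre]
  · choose k' hk' using fun j => hψ (k j)
    have h1 := Set.countable_iUnion (fun σ : List Digit =>
      (hg k' (fun τ j => Z (σ ++ τ) j)).image (fun α => ((α, σ) : Idx)))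
    refine h1.mono ?_
    rintro ⟨α, σ⟩ hα
    refine mem_iUnion.2 ⟨σ, ⟨α, ?_, rfl⟩⟩
    intro hcon
    apply hα
    intro a ha
    obtain ⟨a', rfl⟩ := hφ a
    obtain ⟨n, j, h2, h3⟩ := hcon a' (by
      intro τ0
      obtain ⟨τ, j, ⟨ρ, rfl⟩, h2, h3⟩ := ha (σ ++ τ0)
      refine ⟨τ0 ++ ρ, j, ⟨ρ, rfl⟩, ?_, ?_⟩
      · rw [hk']; exact h2
      · rw [← List.append_assoc]; exact h3)
    refine ⟨σ.length + n, j, ?_, ?_⟩
    · rw [hk'] at h2; exact h2
    · rw [pre_cat]; exact h3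

theorem countable_eq {A E : Type} [Nonempty A] {R : A → E → Prop} {G : Idx → ℕ → Digit}
    (hG : ∀ (k : ℕ → E) (Z : List Digit → ℕ → Prop),
        {i | ¬ ∀ a, (∀ σ, ∃ τ j, σ <+: τ ∧ R a (k j) ∧ Z τ j) →
          ∃ n j, R a (k j) ∧ Z (pre (G i) n) j}.Countable)
    {e0 : E} (he0 : ∀ a, R a e0) (y : ℕ → Bool) : {i | ∀ n, (G i n).1 = y n}.Countable := by
  refine (hG (fun _ => e0) (fun τ _ => ∃ n < τ.length, (dig τ n).1 ≠ y n)).mono ?_
  intro i hi hcon
  obtain ⟨n, _, _, m, hm, h2⟩ := hcon (Classical.arbitrary A) (by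
    intro σ
    refine ⟨σ ++ [(!(y σ.length), false)], 0, ⟨_, rfl⟩, he0 _, σ.length, by simp, ?_⟩
    unfold dig
    rw [List.getD_append_right _ _ _ _ le_rfl]
    simp)
  rw [length_pre] at hm
  rw [dig_pre _ hm] at h2
  exact h2 (hi m)

end Pool.Agent.W631.CU
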