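import Pool.Agent.W631.CU.Supp

/-!
# The values of the embedding at the clopen sets hardly change below densely many conditions
-/

set_option autoImplicit false

namespace Pool.Agent.W631.CU

open Cardinal Set Topology Pool.Agent.W684.FM Pool.Agent.W631.CG Pool.Agent.Helper669.Forcing

variable {G : Idx → ℕ → Digit} {W : Type} [TopologicalSpace W]

/-- the values of `e` at extensions of `τ` differ by at most `ε` -/
def Small (G : Idx → ℕ → Digit) (e : C(XSet G, ℝ) → C(W, ℝ)) (ε : ℝ) (τ : List Digit) : Prop :=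
  ∀ τ1 τ2, τ <+: τ1 → τ <+: τ2 → ∀ w, |e (dx G τ1) w - e (dx G τ2) w| ≤ ε

/-- extension of a condition avoiding finitely many points -/
theorem exists_avoid (τ : List Digit) (F : Finset (XSet G)) :
    ∃ τ3, τ <+: τ3 ∧ ∀ τ', τ3 <+: τ' → ∀ x ∈ F, dx G τ' x = dx G τ x := by
  classical
  have h : ∃ τ3, τ <+: τ3 ∧ (∀ m, τ.length ≤ m → m < τ3.length → (dig τ3 m).2 = false) ∧
      ∀ x ∈ F, ∃ m < τ3.length, yy x m ≠ (dig τ3 m).1 := by
    induction F using Finset.induction_on with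
    | empty =>
      exact ⟨τ, List.prefix_rfl, fun m h1 h2 => absurd h2 (not_lt.2 h1), by simp⟩
    | insert a s _ ih =>
      obtain ⟨τ3, h1, h2, h3⟩ := ih
      have hnew : dig (τ3 ++ [(!(yy a τ3.length), false)]) τ3.length =
          (!(yy a τ3.length), false) := by
        unfold dig
        rw [List.getD_append_right _ _ _ _ le_rfl]
        simp
      refine ⟨τ3 ++ [(!(yy a τ3.length), false)], h1.trans ⟨_, rfl⟩, fun m hm1 hm2 => ?_,
        fun x hx => ?_⟩
      · rw [List.length_append, List.length_singleton] at hm2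
        by_cases hm3 : m < τ3.length
        · rw [dig_append_left _ _ hm3]
          exact h2 m hm1 hm3
        · have : m = τ3.length := by omega
          rw [this, hnew]
      · rcases Finset.mem_insert.1 hx with rfl | hx
        · refine ⟨τ3.length, by simp, ?_⟩
          rw [hnew]
          simp
        · obtain ⟨m, hm, hm2⟩ := h3 x hx
          refine ⟨m, by simp; omega, ?_⟩
          rwa [dig_append_left _ _ hm]
  obtain ⟨τ3, h1, h2, h3⟩ := h
  refine ⟨τ3, h1, fun τ' hτ' x hx => dx_congr ?_⟩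
  have hle := h1.length_le
  have hle' := hτ'.length_le
  constructor
  · rintro ⟨m, hm, ha, hb, hc⟩
    obtain ⟨m0, hm0, hm0'⟩ := h3 x hx
    have hmm : m ≤ m0 := by
      by_contra hcon
      push Not at hcon
      have h4 := ha m0 hcon
      rw [dig_prefix hτ' hm0] at h4
      exact hm0' h4
    have hm3 : m < τ3.length := by omega
    rw [dig_prefix hτ' hm3] at hb hc
    have hm4 : m < τ.length := by
      by_contra hcon
      push Not at hcon
      rw [h2 m hcon hm3] at hc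
      exact absurd hc (by simp)
    refine ⟨m, hm4, fun j hj => ?_, ?_, ?_⟩
    · have h5 := ha j hj
      rw [dig_prefix hτ' (by omega), dig_prefix h1 (by omega)] at h5
      exact h5
    · rwa [dig_prefix h1 hm4] at hb
    · rwa [dig_prefix h1 hm4] at hc
  · rintro ⟨m, hm, ha, hb, hc⟩
    have h13 := h1.trans hτ'
    refine ⟨m, by omega, fun j hj => ?_, ?_, ?_⟩
    · rw [dig_prefix h13 (by omega)]
      exact ha j hj
    · rwa [dig_prefix h13 hm]
    · rwa [dig_prefix h13 hm]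

/-- the names for approximations -/
theorem exists_approx [CompactSpace W] {B : Set (Set W)}
    (hB : TopologicalSpace.IsTopologicalBasis B) :
    ∃ a : Finset ({U : Set W // U ∈ B ∧ U.Nonempty} × ℚ × ℚ) → C(W, ℝ),
      ∀ (f : C(W, ℝ)) (ε : ℝ), 0 < ε → ∃ N, ∀ w, |f w - a N w| < ε := by
  classical
  let Good : Finset ({U : Set W // U ∈ B ∧ U.Nonempty} × ℚ × ℚ) → C(W, ℝ) → Prop := fun N f =>
    ∀ x ∈ N, ∀ w ∈ x.1.1, (x.2.1 : ℝ) < f w ∧ f w < x.2.2
  refine ⟨fun N => if h : ∃ f, Good N f then h.choose else 0, fun f ε hε => ?_⟩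
  have h1 : ∀ w : W, ∃ x : {U : Set W // U ∈ B ∧ U.Nonempty} × ℚ × ℚ, w ∈ x.1.1 ∧
      (∀ w' ∈ x.1.1, (x.2.1 : ℝ) < f w' ∧ f w' < x.2.2) ∧ (x.2.2 : ℝ) - x.2.1 < ε := by
    intro w
    obtain ⟨p, hp1, hp2⟩ := exists_rat_btwn (show f w - ε / 2 < f w by linarith)
    obtain ⟨q, hq1, hq2⟩ := exists_rat_btwn (show f w < f w + ε / 2 by linarith)
    have hO : IsOpen (f ⁻¹' Ioo (p : ℝ) q) := isOpen_Ioo.preimage f.continuous
    obtain ⟨U, hU, hwU, hUO⟩ := hB.exists_subset_of_mem_open (show w ∈ f ⁻¹' Ioo (p : ℝ) q from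
      ⟨hp2, hq1⟩) hO
    exact ⟨⟨⟨U, hU, ⟨w, hwU⟩⟩, p, q⟩, hwU, fun w' hw' => hUO hw', by simp only; linarith⟩
  choose x hx1 hx2 hx3 using h1
  obtain ⟨t, ht⟩ := isCompact_univ.elim_finite_subcover (fun w => (x w).1.1)
    (fun w => hB.isOpen (x w).1.2.1) (fun w _ => mem_iUnion.2 ⟨w, hx1 w⟩)
  have hgood : ∃ f, Good (t.image x) f := by
    refine ⟨f, fun y hy w hw => ?_⟩
    obtain ⟨w', _, rfl⟩ := Finset.mem_image.1 hy
    exact hx2 w' w hw
  refine ⟨t.image x, fun w => ?_⟩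
  beta_reduce
  rw [dif_pos hgood]
  obtain ⟨w', hw', hw⟩ := mem_iUnion₂.1 (ht (mem_univ w))
  have h2 := hx2 w' w hw
  have h3 := hgood.choose_spec (x w') (Finset.mem_image_of_mem _ hw') w hw
  have h4 := hx3 w'
  rw [abs_lt]
  constructor <;> linarith [h2.1, h2.2, h3.1, h3.2]

theorem not_countable_om1 : ¬ Countable Om1 := by
  intro h
  have h1 : #Om1 = ℵ₁ := Cardinal.mk_ord_toType _
  have h2 := Cardinal.mk_le_aleph0 (α := Om1)
  rw [h1] at h2
  exact absurd h2 (not_le.2 Cardinal.aleph0_lt_aleph_one)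

/-- the relation to which the sequences are generic -/
def Rel {V : Type} (a : Finset (V × ℚ × ℚ) → C(W, ℝ)) (pt : V → W)
    (N : Finset (V × ℚ × ℚ)) : Option (V × ℚ × ℚ) → Prop
  | none => True
  | some x => (x.2.1 : ℝ) < a N (pt x.1) ∧ a N (pt x.1) < x.2.2

/-- the second relation -/
def Zrel {V : Type} (G : Idx → ℕ → Digit) (e : C(XSet G, ℝ) → C(W, ℝ)) (pt : V → W) (δ : ℝ)
    (τ : List Digit) : Option (V × ℚ × ℚ) → Prop
  | none => Small G e (10 * δ) τ
  | some x => ∀ τ', τ <+: τ' → ∀ v : ℝ, (x.2.1 : ℝ) < v → v < x.2.2 →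
      2 * δ ≤ |e (dx G τ') (pt x.1) - v|

theorem small_dense {B : Set (Set W)}
    (hB : TopologicalSpace.IsTopologicalBasis B)
    {a : Finset ({U : Set W // U ∈ B ∧ U.Nonempty} × ℚ × ℚ) → C(W, ℝ)}
    (ha : ∀ (f : C(W, ℝ)) (ε : ℝ), 0 < ε → ∃ N, ∀ w, |f w - a N w| < ε)
    {pt : {U : Set W // U ∈ B ∧ U.Nonempty} → W} (hpt : ∀ U, pt U ∈ U.1)
    (hpre : ∀ α σ, pre (G (α, σ)) σ.length = σ)
    (hG : ∀ (k : ℕ → Option ({U : Set W // U ∈ B ∧ U.Nonempty} × ℚ × ℚ))
      (Z : List Digit → ℕ → Prop),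
      {i | ¬ ∀ N, (∀ σ, ∃ τ j, σ <+: τ ∧ Rel a pt N (k j) ∧ Z τ j) →
        ∃ n j, Rel a pt N (k j) ∧ Z (pre (G i) n) j}.Countable)
    {e : C(XSet G, ℝ) → C(W, ℝ)} (he : @IsEmbedding _ _ (cpTop _) (cpTop W) e)
    {δ : ℝ} (hδ : 0 < δ) (τ0 : List Digit) : ∃ τ, τ0 <+: τ ∧ Small G e (10 * δ) τ := by
  classical
  have hfew := countable_eq hG (e0 := none) (fun _ => trivial)
  -- the countable set of basic open sets
  have hU : ∀ x : List Digit × List Digit, ∃ U : Option {U : Set W // U ∈ B ∧ U.Nonempty},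
      (∃ w, 10 * δ < |e (dx G x.1) w - e (dx G x.2) w|) → ∃ U', U = some U' ∧
        ∀ w ∈ U'.1, 10 * δ < |e (dx G x.1) w - e (dx G x.2) w| := by
    intro x
    by_cases h : ∃ w, 10 * δ < |e (dx G x.1) w - e (dx G x.2) w|
    · obtain ⟨w, hw⟩ := h
      have hO : IsOpen {w | 10 * δ < |e (dx G x.1) w - e (dx G x.2) w|} :=
        isOpen_lt continuous_const (by fun_prop)
      obtain ⟨U, hU, hwU, hUO⟩ := hB.exists_subset_of_mem_open hw hO
      exact ⟨some ⟨U, hU, ⟨w, hwU⟩⟩, fun _ => ⟨_, rfl, fun w' hw' => hUO hw'⟩⟩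
    · exact ⟨none, fun h' => absurd h' h⟩
  choose U hU using hU
  let k' : Option (List Digit × List Digit × ℚ × ℚ) →
      Option ({U : Set W // U ∈ B ∧ U.Nonempty} × ℚ × ℚ)
    | none => none
    | some x => (U (x.1, x.2.1)).map fun V => (V, x.2.2)
  obtain ⟨s, hs⟩ := exists_surjective_nat (Option (List Digit × List Digit × ℚ × ℚ))
  let k : ℕ → Option ({U : Set W // U ∈ B ∧ U.Nonempty} × ℚ × ℚ) := fun j => k' (s j)
  let Z : List Digit → ℕ → Prop := fun τ j => Zrel G e pt δ τ (k j)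
  -- the choice of the index
  have hbad : ({i | ¬ ∀ N, (∀ σ, ∃ τ j, σ <+: τ ∧ Rel a pt N (k j) ∧ Z τ j) →
        ∃ n j, Rel a pt N (k j) ∧ Z (pre (G i) n) j} ∪ ⋃ j, {i | ∃ x, k j = some x ∧
          ∃ m, ∀ n ≥ m, δ ≤ |e (dx G (pre (G i) n)) (pt x.1) - e (fx G i) (pt x.1)|}).Countable := by
    refine (hG k Z).union (countable_iUnion fun j => ?_)
    cases hkj : k j with
    | none => simp
    | some x =>
      refine (support hfew (φ := fun f => e f (pt x.1)) ?_ hδ).mono ?_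
      · exact fun f ε hε => emb_cont he f (pt x.1) hε
      · rintro i ⟨y, hy, hi⟩
        rw [Option.some.injEq] at hy
        subst hy
        exact hi
  obtain ⟨α, hα⟩ : ∃ α : Om1, (α, τ0) ∉ ({i | ¬ ∀ N, (∀ σ, ∃ τ j, σ <+: τ ∧ Rel a pt N (k j) ∧
      Z τ j) → ∃ n j, Rel a pt N (k j) ∧ Z (pre (G i) n) j} ∪ ⋃ j, {i | ∃ x, k j = some x ∧
          ∃ m, ∀ n ≥ m, δ ≤ |e (dx G (pre (G i) n)) (pt x.1) - e (fx G i) (pt x.1)|}) := by
    by_contra hcon
    apply not_countable_om1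
    have h1 := hbad.preimage (f := fun α : Om1 => ((α, τ0) : Idx)) (fun a b hab => by
      simpa using hab)
    rw [← Set.countable_univ_iff]
    exact h1.mono fun α _ => by_contra fun h => hcon ⟨α, h⟩
  simp only [mem_union, not_or] at hα
  obtain ⟨hα1, hα2⟩ := hα
  set i : Idx := (α, τ0) with hi
  have hgen := not_not.1 hα1
  have hsup : ∀ j x, k j = some x → ∀ m, ∃ n ≥ m,
      |e (dx G (pre (G i) n)) (pt x.1) - e (fx G i) (pt x.1)| < δ := by
    intro j x hjx m
    by_contra hcon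
    push Not at hcon
    exact hα2 (mem_iUnion.2 ⟨j, x, hjx, m, hcon⟩)
  obtain ⟨N, hN⟩ := ha (e (fx G i)) δ hδ
  obtain ⟨jn, hjn⟩ := hs none
  have hkn : k jn = none := by simp only [k, hjn, k']
  obtain ⟨n, j, hR, hZ⟩ := hgen N (by
    intro σ
    by_cases hσ : Small G e (10 * δ) σ
    · refine ⟨σ, jn, List.prefix_rfl, ?_, ?_⟩
      · rw [hkn]; trivial
      · change Zrel G e pt δ σ (k jn)
        rw [hkn]; exact hσ
    · unfold Small at hσ
      push Not at hσ
      obtain ⟨τ1, τ2, hτ1, hτ2, hw⟩ := hσ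
      obtain ⟨V, hV, hVw⟩ := hU (τ1, τ2) hw
      have hbig := hVw _ (hpt V)
      -- one of them is far from the approximation
      obtain ⟨τs, hτs, hfar⟩ : ∃ τs, σ <+: τs ∧ 5 * δ < |e (dx G τs) (pt V) - a N (pt V)| := by
        by_contra hcon
        push Not at hcon
        have h1 := hcon τ1 hτ1
        have h2 := hcon τ2 hτ2
        have h3 : |e (dx G τ1) (pt V) - e (dx G τ2) (pt V)| ≤
            |e (dx G τ1) (pt V) - a N (pt V)| + |e (dx G τ2) (pt V) - a N (pt V)| := by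
          rw [abs_sub_comm (e (dx G τ2) (pt V)) (a N (pt V))]
          exact abs_sub_le _ _ _
        simp only at hbig
        linarith
      obtain ⟨F, δ', hδ', hF⟩ := emb_cont he (dx G τs) (pt V) hδ
      obtain ⟨τ3, h3, h3'⟩ := exists_avoid τs F
      obtain ⟨p, hp1, hp2⟩ := exists_rat_btwn (show a N (pt V) - δ / 2 < a N (pt V) by linarith)
      obtain ⟨q, hq1, hq2⟩ := exists_rat_btwn (show a N (pt V) < a N (pt V) + δ / 2 by linarith)
      obtain ⟨j, hj⟩ := hs (some (τ1, τ2, p, q))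
      have hkj : k j = some (V, p, q) := by simp only [k, hj, k', hV, Option.map_some]
      refine ⟨τ3, j, hτs.trans h3, ?_, ?_⟩
      · rw [hkj]
        exact ⟨hp2, hq1⟩
      · change Zrel G e pt δ τ3 (k j)
        rw [hkj]
        intro τ' hτ' v hv1 hv2
        simp only at hv1 hv2 ⊢
        have h4 := hF (dx G τ') fun x hx => by
          rw [h3' τ' hτ' x hx]
          simpa using hδ'
        have h5 : |e (dx G τs) (pt V) - a N (pt V)| ≤ |e (dx G τs) (pt V) - e (dx G τ') (pt V)| +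
            |e (dx G τ') (pt V) - v| + |v - a N (pt V)| := by
          have h6 := abs_sub_le (e (dx G τs) (pt V)) (e (dx G τ') (pt V)) (a N (pt V))
          have h7 := abs_sub_le (e (dx G τ') (pt V)) v (a N (pt V))
          linarith
        rw [abs_sub_comm (e (dx G τs) (pt V)) (e (dx G τ') (pt V))] at h5
        have h8 : |v - a N (pt V)| < δ := abs_lt.2 ⟨by linarith, by linarith⟩
        linarith)
  have hZ' : Zrel G e pt δ (pre (G i) n) (k j) := hZ
  cases hkj : k j with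
  | none =>
    rw [hkj] at hZ'
    have h1 : Small G e (10 * δ) (pre (G i) n) := hZ'
    have hmono : ∀ n n', n ≤ n' → pre (G i) n <+: pre (G i) n' := by
      intro n n' hnn
      obtain ⟨c, rfl⟩ := Nat.exists_eq_add_of_le hnn
      unfold pre
      rw [List.range_add, List.map_append]
      exact List.prefix_append _ _
    refine ⟨pre (G i) (max n τ0.length), ?_, ?_⟩
    · have h2 := hmono τ0.length (max n τ0.length) (le_max_right _ _)
      rwa [hpre] at h2
    · intro τ1 τ2 hτ1 hτ2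
      have h2 := hmono n (max n τ0.length) (le_max_left _ _)
      exact h1 τ1 τ2 (h2.trans hτ1) (h2.trans hτ2)
  | some x =>
    exfalso
    rw [hkj] at hZ' hR
    obtain ⟨n', hn', h1⟩ := hsup j x hkj n
    have hmono : pre (G i) n <+: pre (G i) n' := by
      obtain ⟨c, rfl⟩ := Nat.exists_eq_add_of_le hn'
      unfold pre
      rw [List.range_add, List.map_append]
      exact List.prefix_append _ _
    have h2 := hZ' (pre (G i) n') hmono (a N (pt x.1)) hR.1 hR.2
    have h3 := hN (pt x.1)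
    have h4 := abs_sub_le (e (dx G (pre (G i) n')) (pt x.1)) (e (fx G i) (pt x.1)) (a N (pt x.1))
    linarith

end Pool.Agent.W631.CU
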