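import Pool.Agent.W631.CU.Gen
import Pool.Agent.W631.CU.Cp
import Pool.Agent.W631.CG.Fn

/-!
# The compact space
-/

set_option autoImplicit false

namespace Pool.Agent.W631.CU

open Cardinal Set Topology Pool.Agent.W684.FM Pool.Agent.W631.CG

/-- the Cantor cube containing the space -/
abbrev Cube : Type := ℕ ⊕ Idx → Bool

/-- The underlying set of the space: the Cantor space, where the point `x i`, the sequence of the
first components of `G i`, is split in two. -/
def XSet (G : Idx → ℕ → Digit) : Set Cube :=
  {p | ∀ i n, (∀ m < n, p (Sum.inl m) = (G i m).1) → p (Sum.inl n) ≠ (G i n).1 →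
    p (Sum.inr i) = (G i n).2}

theorem continuous_of_dep {T α : Type} [TopologicalSpace α] (F : Finset T) (P : (T → Bool) → α)
    (h : ∀ p q, (∀ t ∈ F, p t = q t) → P p = P q) : Continuous P := by
  classical
  have h1 : P = (fun v : F → Bool => P fun t => if h : t ∈ F then v ⟨t, h⟩ else false) ∘
      (fun p t => p t.1) := by
    funext p
    apply h
    intro t ht
    simp [ht]
  rw [h1]
  refine Continuous.comp continuous_of_discreteTopology ?_
  exact continuous_pi fun t => continuous_apply _

theorem isClosed_XSet (G : Idx → ℕ → Digit) : IsClosed (XSet G) := by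
  classical
  have h1 : XSet G = ⋂ i, ⋂ n, {p : Cube | (∀ m < n, p (Sum.inl m) = (G i m).1) →
      p (Sum.inl n) ≠ (G i n).1 → p (Sum.inr i) = (G i n).2} := by
    ext p
    simp [XSet]
  rw [h1]
  refine isClosed_iInter fun i => isClosed_iInter fun n => ?_
  let F : Finset (ℕ ⊕ Idx) := insert (Sum.inr i) ((Finset.range (n + 1)).image Sum.inl)
  have h2 : Continuous fun p : Cube => decide ((∀ m < n, p (Sum.inl m) = (G i m).1) →
      p (Sum.inl n) ≠ (G i n).1 → p (Sum.inr i) = (G i n).2) := by
    refine continuous_of_dep F _ fun p q hpq => ?_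
    have h3 : ∀ m ≤ n, p (Sum.inl m) = q (Sum.inl m) := fun m hm => hpq _
      (Finset.mem_insert_of_mem (Finset.mem_image_of_mem _ (Finset.mem_range.2 (by omega))))
    have h4 : p (Sum.inr i) = q (Sum.inr i) := hpq _ (Finset.mem_insert_self _ _)
    have h5 : (∀ m < n, p (Sum.inl m) = (G i m).1) ↔ (∀ m < n, q (Sum.inl m) = (G i m).1) :=
      forall₂_congr fun m hm => by rw [h3 m (le_of_lt hm)]
    simp only [h5, h3 n le_rfl, h4]
  have h3 := (isClosed_discrete ({true} : Set Bool)).preimage h2
  convert h3 using 1
  ext p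
  simp only [mem_preimage, mem_singleton_iff, decide_eq_true_eq, mem_ofPred_eq]

variable {G : Idx → ℕ → Digit}

instance : CompactSpace (XSet G) := isCompact_iff_compactSpace.1 (isClosed_XSet G).isCompact

/-- the projection to the Cantor space -/
def yy (p : XSet G) (n : ℕ) : Bool := p.1 (Sum.inl n)

/-- the characteristic function of the `i`-th set -/
noncomputable def fx (G : Idx → ℕ → Digit) (i : Idx) : C(XSet G, ℝ) where
  toFun p := if p.1 (Sum.inr i) then 1 else 0
  continuous_toFun := by
    refine (continuous_of_dep {Sum.inr i} (fun p : Cube => if p (Sum.inr i) then (1 : ℝ) else 0)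
      fun p q h => ?_).comp continuous_subtype_val
    rw [h _ (Finset.mem_singleton_self _)]

/-- the clopen set given by a finite sequence of digits -/
def uu (τ : List Digit) (y : ℕ → Bool) : Prop :=
  ∃ m < τ.length, (∀ j < m, y j = (dig τ j).1) ∧ y m ≠ (dig τ m).1 ∧ (dig τ m).2 = true

open Classical in
/-- its characteristic function -/
noncomputable def dx (G : Idx → ℕ → Digit) (τ : List Digit) : C(XSet G, ℝ) where
  toFun p := if uu τ (yy p) then 1 else 0
  continuous_toFun := by
    refine (continuous_of_dep ((Finset.range τ.length).image Sum.inl)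
      (fun p : Cube => if uu τ (fun n => p (Sum.inl n)) then (1 : ℝ) else 0)
      fun p q h => ?_).comp continuous_subtype_val
    have h1 : ∀ m < τ.length, p (Sum.inl m) = q (Sum.inl m) := fun m hm =>
      h _ (Finset.mem_image_of_mem _ (Finset.mem_range.2 hm))
    have h2 : uu τ (fun n => p (Sum.inl n)) ↔ uu τ (fun n => q (Sum.inl n)) := by
      unfold uu
      refine exists_congr fun m => and_congr_right fun hm => ?_
      simp only [h1 m hm]
      refine and_congr_left fun _ => forall₂_congr fun j hj => ?_
      rw [h1 j (hj.trans hm)]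
    simp only [h2]

theorem fx_apply (i : Idx) (p : XSet G) : fx G i p = if p.1 (Sum.inr i) then 1 else 0 := rfl

open Classical in
theorem dx_apply (τ : List Digit) (p : XSet G) : dx G τ p = if uu τ (yy p) then 1 else 0 := rfl

theorem dx_nil (p : XSet G) : dx G [] p = 0 := by
  rw [dx_apply, if_neg]
  rintro ⟨m, hm, _⟩
  simp at hm

/-- the values of `dx` are determined by `uu` -/
theorem dx_congr {τ τ' : List Digit} {p : XSet G} (h : uu τ (yy p) ↔ uu τ' (yy p)) :
    dx G τ p = dx G τ' p := by
  rw [dx_apply, dx_apply]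
  by_cases h1 : uu τ (yy p)
  · rw [if_pos h1, if_pos (h.1 h1)]
  · rw [if_neg h1, if_neg fun h2 => h1 (h.2 h2)]

/-- outside of the split point the approximations are eventually exact -/
theorem dx_eventually (i : Idx) (p : XSet G) (h : ∃ m, yy p m ≠ (G i m).1) :
    ∃ m0, ∀ n ≥ m0, dx G (pre (G i) n) p = fx G i p := by
  classical
  let m := Nat.find h
  have hm : yy p m ≠ (G i m).1 := Nat.find_spec h
  have hlt : ∀ j < m, yy p j = (G i j).1 := fun j hj => not_not.1 (Nat.find_min h hj)
  have h1 : p.1 (Sum.inr i) = (G i m).2 := p.2 i m hlt hm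
  refine ⟨m + 1, fun n hn => ?_⟩
  rw [dx_apply, fx_apply, h1]
  have h2 : uu (pre (G i) n) (yy p) ↔ (G i m).2 = true := by
    constructor
    · rintro ⟨m', hm', ha, hb, hc⟩
      rw [length_pre] at hm'
      rw [dig_pre _ hm'] at hb hc
      have : m' = m := by
        rcases lt_trichotomy m' m with h3 | h3 | h3
        · exact absurd (hlt m' h3) hb
        · exact h3
        · have h4 := ha m h3
          rw [dig_pre _ (h3.trans hm')] at h4
          exact absurd h4 hm
      rw [← this]
      exact hc
    · intro hc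
      refine ⟨m, by rw [length_pre]; omega, fun j hj => ?_, ?_, ?_⟩
      · rw [dig_pre _ (by omega)]
        exact hlt j hj
      · rwa [dig_pre _ (by omega)]
      · rwa [dig_pre _ (by omega)]
  simp only [h2]

/-- the projection is onto -/
theorem exists_point (G : Idx → ℕ → Digit) (y : ℕ → Bool) : ∃ p : XSet G, yy p = y := by
  classical
  refine ⟨⟨Sum.elim y fun i => if h : ∃ n, y n ≠ (G i n).1 then (G i (Nat.find h)).2 else false,
    fun i n h1 h2 => ?_⟩, funext fun n => rfl⟩
  simp only [Sum.elim_inl] at h1 h2
  have h : ∃ n, y n ≠ (G i n).1 := ⟨n, h2⟩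
  simp only [Sum.elim_inr, dif_pos h]
  have : Nat.find h = n := (Nat.find_eq_iff h).2 ⟨h2, fun m hm hcon => hcon (h1 m hm)⟩
  rw [this]

/-- interpolation -/
theorem exists_interp {X : Type} [TopologicalSpace X] [CompactSpace X] [T2Space X]
    (ρ : Fn X Bool) : ∃ h : C(X, ℝ), ∀ z ∈ ρ.dom, h z = if ρ.val z then 1 else 0 := by
  classical
  have h1 : IsClosed (ρ.dom.filter (fun z => ρ.val z = false) : Set X) :=
    (Finset.finite_toSet _).isClosed
  have h2 : IsClosed (ρ.dom.filter (fun z => ρ.val z = true) : Set X) :=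
    (Finset.finite_toSet _).isClosed
  obtain ⟨f, hf0, hf1, -⟩ := exists_continuous_zero_one_of_isClosed h1 h2 (by
    rw [Set.disjoint_left]
    intro z hz hz'
    simp only [Finset.coe_filter, mem_ofPred_eq] at hz hz'
    rw [hz.2] at hz'
    simp at hz')
  refine ⟨f, fun z hz => ?_⟩
  cases hv : ρ.val z
  · simpa using hf0 (by simp [hz, hv])
  · simpa using hf1 (by simp [hz, hv])

end Pool.Agent.W631.CU
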