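import Pool.Agent.W631.CU.Space

/-!
# Countable supports of continuous functions on `C_p(X)`
-/

set_option autoImplicit false

namespace Pool.Agent.W631.CU

open Cardinal Set Topology Pool.Agent.W684.FM Pool.Agent.W631.CG Pool.Agent.Helper669.Forcing

variable {G : Idx → ℕ → Digit}

/-- `φ` is continuous for the topology of pointwise convergence -/
def CpCont {X : Type} [TopologicalSpace X] (φ : C(X, ℝ) → ℝ) : Prop :=
  ∀ (f : C(X, ℝ)) (ε : ℝ), 0 < ε → ∃ (F : Finset X) (δ : ℝ), 0 < δ ∧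
    ∀ g : C(X, ℝ), (∀ x ∈ F, |g x - f x| < δ) → |φ g - φ f| < ε

theorem dx_cases (τ : List Digit) (p : XSet G) : dx G τ p = 0 ∨ dx G τ p = 1 := by
  classical
  rw [dx_apply]
  by_cases h : uu τ (yy p)
  · right; rw [if_pos h]
  · left; rw [if_neg h]

theorem fx_cases (i : Idx) (p : XSet G) : fx G i p = 0 ∨ fx G i p = 1 := by
  rw [fx_apply]
  by_cases h : p.1 (Sum.inr i) = true
  · right; rw [if_pos h]
  · left; rw [if_neg h]

open Classical in
/-- the finite part of a function with values `0` and `1` -/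
noncomputable def part {X : Type} [TopologicalSpace X] (f : C(X, ℝ)) (F : Finset X) :
    Fn X Bool := ⟨F, fun z => decide (f z = 1)⟩

theorem part_spec {X : Type} [TopologicalSpace X] {f : C(X, ℝ)} (hf : ∀ x, f x = 0 ∨ f x = 1)
    (F : Finset X) (z : X) : (if (part f F).val z then (1 : ℝ) else 0) = f z := by
  rcases hf z with h | h <;> simp [part, h]

/-- the function `f` extends the finite function `ρ` -/
def Ext {X : Type} [TopologicalSpace X] (ρ : Fn X Bool) (f : C(X, ℝ)) : Prop :=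
  ∀ z ∈ ρ.dom, f z = if ρ.val z then 1 else 0

theorem Ext.mono {X : Type} [TopologicalSpace X] {ρ ρ' : Fn X Bool} {f : C(X, ℝ)}
    (h : Ext ρ f) (hle : ρ ≤ ρ') : Ext ρ' f := fun z hz => by
  rw [h z (hle.1 hz), hle.2 z hz]

theorem half (hfew : ∀ y : ℕ → Bool, {i | ∀ n, (G i n).1 = y n}.Countable)
    {φ : C(XSet G, ℝ) → ℝ} (hφ : CpCont φ) {δ : ℝ} (hδ : 0 < δ) :
    {i | ∀ m, ∃ n ≥ m, φ (fx G i) + δ ≤ φ (dx G (pre (G i) n))}.Countable := by
  classical
  choose A hA1 hA2 using fun q : ℚ => Fn.exists_support (J := XSet G) (K := Bool)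
    {ρ | ∀ f : C(XSet G, ℝ), Ext ρ f → φ f < q}
  have hT : (⋃ q, ⋃ z ∈ A q, {i | ∀ n, (G i n).1 = yy z n}).Countable :=
    countable_iUnion fun q => (hA1 q).biUnion fun z _ => hfew (yy z)
  refine hT.mono ?_
  intro i hi
  by_contra hcon
  have hout : ∀ q, ∀ z ∈ A q, ∃ m, yy z m ≠ (G i m).1 := by
    intro q z hz
    by_contra h
    push Not at h
    exact hcon (mem_iUnion.2 ⟨q, mem_iUnion₂.2 ⟨z, hz, fun n => (h n).symm⟩⟩)
  obtain ⟨q, hq1, hq2⟩ := exists_rat_btwn (lt_add_of_pos_right (φ (fx G i)) hδ)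
  obtain ⟨F, δ', hδ', hF⟩ := hφ (fx G i) (q - φ (fx G i)) (by linarith)
  have hρ : part (fx G i) F ∈ {ρ : Fn (XSet G) Bool | ∀ f : C(XSet G, ℝ), Ext ρ f → φ f < q} := by
    intro f hf
    have h1 := hF f fun x hx => by
      rw [hf x hx, part_spec (fx_cases i) F x]
      simpa using hδ'
    have h2 := (abs_lt.1 h1).2
    linarith
  have hres := hA2 q _ (meets_of_mem hρ)
  -- the common values
  have hm : ∃ m, ∀ n ≥ m, ∀ z ∈ F.filter (· ∈ A q), dx G (pre (G i) n) z = fx G i z := by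
    have h1 : ∀ z ∈ F.filter (· ∈ A q), ∃ m, ∀ n ≥ m, dx G (pre (G i) n) z = fx G i z :=
      fun z hz => dx_eventually i z (hout q z (Finset.mem_filter.1 hz).2)
    choose! m hm using h1
    refine ⟨(F.filter (· ∈ A q)).sup m, fun n hn z hz => hm z hz n ?_⟩
    exact (Finset.le_sup hz).trans hn
  obtain ⟨m, hm⟩ := hm
  obtain ⟨n, hn, hn2⟩ := hi m
  obtain ⟨F', δ'', hδ'', hF'⟩ := hφ (dx G (pre (G i) n)) (φ (dx G (pre (G i) n)) - q)
    (by linarith)
  let θ : Fn (XSet G) Bool := part (dx G (pre (G i) n)) (F' ∪ F.filter (· ∈ A q))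
  have hθ : θ ≤ (part (fx G i) F).res (A q) := by
    refine ⟨fun z hz => ?_, fun z hz => ?_⟩
    · rw [Fn.mem_res_dom] at hz
      exact Finset.mem_union_right _ (Finset.mem_filter.2 hz)
    · rw [Fn.mem_res_dom] at hz
      rw [Fn.res_val]
      change decide (dx G (pre (G i) n) z = 1) = decide (fx G i z = 1)
      rw [hm n hn z (Finset.mem_filter.2 hz)]
  obtain ⟨r, hr, s, hs, hrs⟩ := hres θ hθ
  obtain ⟨h, hh⟩ := exists_interp r
  have hhr : Ext r h := hh
  have h1 : φ h < q := hs h (hhr.mono hrs)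
  have h2 := hF' h fun x hx => by
    rw [hhr.mono hr x (Finset.mem_union_left _ hx), part_spec (dx_cases _) _ x]
    simpa using hδ''
  have h3 := (abs_lt.1 h2).1
  linarith

theorem support (hfew : ∀ y : ℕ → Bool, {i | ∀ n, (G i n).1 = y n}.Countable)
    {φ : C(XSet G, ℝ) → ℝ} (hφ : CpCont φ) {δ : ℝ} (hδ : 0 < δ) :
    {i | ∃ m, ∀ n ≥ m, δ ≤ |φ (dx G (pre (G i) n)) - φ (fx G i)|}.Countable := by
  have hφ' : CpCont fun f => -φ f := by
    intro f ε hε
    obtain ⟨F, δ', h1, h2⟩ := hφ f ε hε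
    refine ⟨F, δ', h1, fun g hg => ?_⟩
    have h3 := h2 g hg
    rw [show -φ g - -φ f = -(φ g - φ f) by ring, abs_neg]
    exact h3
  refine ((half hfew hφ hδ).union (half hfew hφ' hδ)).mono ?_
  rintro i ⟨m, hm⟩
  by_contra hcon
  simp only [mem_union, mem_ofPred_eq, not_or, not_forall, not_exists, not_and, not_le] at hcon
  obtain ⟨⟨m1, h1⟩, ⟨m2, h2⟩⟩ := hcon
  have h3 := hm (max m (max m1 m2)) (le_max_left _ _)
  have h4 := h1 (max m (max m1 m2)) ((le_max_left _ _).trans (le_max_right _ _))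
  have h5 := h2 (max m (max m1 m2)) ((le_max_right _ _).trans (le_max_right _ _))
  have h6 : |φ (dx G (pre (G i) (max m (max m1 m2)))) - φ (fx G i)| < δ :=
    abs_lt.2 ⟨by linarith, by linarith⟩
  linarith

end Pool.Agent.W631.CU
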